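import Pool.Agent.Lib.MP_1a91b9_nuT.Rq.Va

/-!
# The square of the absolute value of an element of `K` is rational
-/

set_option autoImplicit false

namespace Pool.Agent.Lib.MP_1a91b9_nuT.Rq

variable [CD]

theorem normSq_rat (x : K) : ∃ q : ℚ, (q : ℝ) = ‖embK x‖ ^ 2 := by
  obtain ⟨y, hy⟩ := va_conj x
  refine real_K (x := x * y) ?_
  rw [map_mul, ← hy, Complex.mul_conj, Complex.normSq_eq_norm_sq]


end Pool.Agent.Lib.MP_1a91b9_nuT.Rq
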