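import Pool.Agent.Lib.MP_1a91b9_nuT.Rq.Fx
import Pool.Agent.Lib.MP_1a91b9_nuT.Mult.MulA

/-!
# S10-ACT: the action of the automorphisms on the values of `E₁` at torsion points

`Rel τ u w`: the point `w` of `ℂ / Λ` corresponds to the image under `τ` of the point `u` of the
elliptic curve. The addition formulas give additivity; for torsion points of odd order the difference
`τ (ev u) - ev w` is additive, hence zero.
-/

set_option autoImplicit false

namespace Pool.Agent.Lib.MP_1a91b9_nuT.Rq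

variable [CD]

open NumberField S3 Filter Topology

noncomputable section

/-- `w` corresponds to the image of `u` under `τ`. -/
def Rel (τ : ℂ ≃+* ℂ) (u w : ℂ) : Prop :=
  (u ∈ PP.lattice ∧ w ∈ PP.lattice) ∨
    (u ∉ PP.lattice ∧ w ∉ PP.lattice ∧ X w = τ (X u) ∧ Y w = τ (Y u))


theorem X_neg (z : ℂ) : X (-z) = X z := Ell.X_neg z

theorem Y_neg (z : ℂ) : Y (-z) = -Y z := Ell.Y_neg z

theorem Y_add {l : ℂ} (hl : l ∈ PP.lattice) (z : ℂ) : Y (z + l) = Y z := Ell.Y_add hl z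

theorem ev_add {l : ℂ} (hl : l ∈ PP.lattice) (z : ℂ) : ev (z + l) = ev z := by
  rw [ev, ev, E1_add hl]

theorem ev_neg (z : ℂ) : ev (-z) = -ev z := by rw [ev, ev, E1_neg, neg_div]

theorem ev_coe {l : ℂ} (hl : l ∈ PP.lattice) : ev l = 0 := by rw [ev, E1_coe hl, zero_div]


theorem Y_ne {z : ℂ} (hz : 2 * z ∉ PP.lattice) : Y z ≠ 0 :=
  div_ne_zero (Per.Q_ne hz) (pow_ne_zero 3 Om_ne_zero)


theorem rel_exists (τ : ℂ ≃+* ℂ) {u : ℂ} (hu : u ∉ PP.lattice) : ∃ w, Rel τ u w := by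
  obtain ⟨w, hw, hP⟩ := Per.P_surj (τ (X u) * Om ^ 2)
  have hX : X w = τ (X u) := by
    rw [X, hP, mul_div_cancel_right₀ _ (pow_ne_zero 2 Om_ne_zero)]
  have h1 : Y w ^ 2 = τ (Y u) ^ 2 := by
    rw [Y_sq hw, hX, ← map_pow τ (Y u), Y_sq hu]
    simp only [map_add, map_mul, map_pow, map_intCast, map_ofNat]
  rcases sq_eq_sq_iff_eq_or_eq_neg.1 h1 with h | h
  · exact ⟨w, Or.inr ⟨hu, hw, hX, h⟩⟩
  · refine ⟨-w, Or.inr ⟨hu, fun hn => hw ?_, by rw [X_neg, hX], by rw [Y_neg, h, neg_neg]⟩⟩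
    have := neg_mem hn
    rwa [neg_neg] at this

theorem rel_period {τ : ℂ ≃+* ℂ} {u w l l' : ℂ} (h : Rel τ u w) (hl : l ∈ PP.lattice)
    (hl' : l' ∈ PP.lattice) : Rel τ (u + l) (w + l') := by
  rcases h with ⟨h1, h2⟩ | ⟨h1, h2, h3, h4⟩
  · exact Or.inl ⟨add_mem h1 hl, add_mem h2 hl'⟩
  · refine Or.inr ⟨fun h => h1 ((add_mem_iff hl).1 h), fun h => h2 ((add_mem_iff hl').1 h), ?_, ?_⟩
    · rw [X_add hl', X_add hl, h3]
    · rw [Y_add hl', Y_add hl, h4]

theorem rel_neg {τ : ℂ ≃+* ℂ} {u w : ℂ} (h : Rel τ u w) : Rel τ (-u) (-w) := by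
  rcases h with ⟨h1, h2⟩ | ⟨h1, h2, h3, h4⟩
  · exact Or.inl ⟨neg_mem h1, neg_mem h2⟩
  · refine Or.inr ⟨fun h => h1 (neg_mem_iff.1 h), fun h => h2 (neg_mem_iff.1 h), ?_, ?_⟩
    · rw [X_neg, X_neg, h3]
    · rw [Y_neg, Y_neg, h4, map_neg]

/-! ### Multiplication by the elements of `𝓞 K` -/

/-- the value of a polynomial over `K` -/
def pv (p : Polynomial K) (x : ℂ) : ℂ := (p.map (embK.toRingHom : K →+* ℂ)).eval x

theorem pv_map {τ : ℂ ≃+* ℂ} (hτ : Fix τ) (p : Polynomial K) (x : ℂ) :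
    τ (pv p x) = pv p (τ x) := by
  have h : (τ : ℂ →+* ℂ).comp (embK.toRingHom : K →+* ℂ) = (embK.toRingHom : K →+* ℂ) := by
    ext y
    exact fx_K hτ y
  rw [pv, pv, Polynomial.eval_map, Polynomial.eval_map]
  have h2 := Polynomial.hom_eval₂ p (embK.toRingHom : K →+* ℂ) (τ : ℂ →+* ℂ) x
  rw [h] at h2
  exact h2

theorem pv_coprime {p q : Polynomial K} (h : IsCoprime p q) {x : ℂ} (hp : pv p x = 0)
    (hq : pv q x = 0) : False := by
  obtain ⟨u, v, huv⟩ := h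
  have h1 : pv (u * p + v * q) x = 1 := by rw [huv, pv, Polynomial.map_one, Polynomial.eval_one]
  rw [pv, Polynomial.map_add, Polynomial.map_mul, Polynomial.map_mul, Polynomial.eval_add,
    Polynomial.eval_mul, Polynomial.eval_mul] at h1
  change (u.map _).eval x * pv p x + (v.map _).eval x * pv q x = 1 at h1
  rw [hp, hq, mul_zero, mul_zero, add_zero] at h1
  exact zero_ne_one h1

theorem pv_cont (p : Polynomial K) {z : ℂ} (hz : z ∉ PP.lattice) :
    ContinuousAt (fun w => pv p (X w)) z := by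
  have h1 : Continuous (pv p) := (p.map (embK.toRingHom : K →+* ℂ)).continuous
  exact ContinuousAt.comp (g := pv p) (f := X) h1.continuousAt ((continuousAt_P hz).div_const _)

theorem pv_mul {a : 𝓞 K} (ha : a ≠ 0) {z : ℂ} (hz : z ∉ PP.lattice)
    (haz : embK (a : K) * z ∉ PP.lattice) :
    pv (Mult.mulN a) (X z) = X (embK (a : K) * z) * pv (Mult.mulD a) (X z) :=
  (Mult.mul_spec ha).2.2.2.2.2.1 z hz haz

theorem pv_D_ne {a : 𝓞 K} (ha : a ≠ 0) {z : ℂ} (hz : z ∉ PP.lattice)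
    (haz : embK (a : K) * z ∉ PP.lattice) : pv (Mult.mulD a) (X z) ≠ 0 := by
  intro h
  have h1 := pv_mul ha hz haz
  rw [h, mul_zero] at h1
  exact pv_coprime (Mult.mul_spec ha).2.2.2.2.1 h1 h

theorem pv_D_zero {a : 𝓞 K} (ha : a ≠ 0) {z : ℂ} (hz : z ∉ PP.lattice)
    (haz : embK (a : K) * z ∈ PP.lattice) : pv (Mult.mulD a) (X z) = 0 := by
  have ha0 := Mult.embK_ne_zero ha
  obtain ⟨α, hα⟩ : ∃ α : ℂ, α = embK (a : K) := ⟨_, rfl⟩
  rw [← hα] at ha0 haz
  have hmap : Tendsto (fun w : ℂ => α * w) (𝓝[≠] z) (𝓝[≠] (α * z)) := by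
    refine tendsto_nhdsWithin_iff.2 ⟨?_, ?_⟩
    · have h2 : ContinuousAt (fun w : ℂ => α * w) z := by fun_prop
      exact h2.tendsto.mono_left nhdsWithin_le_nhds
    · filter_upwards [self_mem_nhdsWithin] with w hw h
      exact hw (mul_left_cancel₀ ha0 h)
  have h1 := (Mult.tendsto_P_lattice haz).comp hmap
  have h2 : Tendsto (fun w : ℂ => (α * w - α * z) ^ 2 * pv (Mult.mulN a) (X w)) (𝓝[≠] z) (𝓝 0) := by
    have h3 : ContinuousAt (fun w : ℂ => (α * w - α * z) ^ 2 * pv (Mult.mulN a) (X w)) z :=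
      ContinuousAt.mul (by fun_prop) (pv_cont _ hz)
    have h4 := h3.tendsto.mono_left (nhdsWithin_le_nhds (s := {z}ᶜ))
    rw [sub_self, zero_pow two_ne_zero, zero_mul] at h4
    exact h4
  have h5 := (h1.mul ((pv_cont (Mult.mulD a) hz).tendsto.mono_left
    (nhdsWithin_le_nhds (s := {z}ᶜ)))).div_const (Om ^ 2)
  have h6 : (fun w : ℂ => (α * w - α * z) ^ 2 * pv (Mult.mulN a) (X w)) =ᶠ[𝓝[≠] z]
      fun w : ℂ => ((fun z_1 => (z_1 - α * z) ^ 2 * PP.weierstrassP z_1) ∘ fun w => α * w) w *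
        pv (Mult.mulD a) (X w) / Om ^ 2 := by
    filter_upwards [eventually_notMem z, eventually_mul_notMem ha0 z] with w hw1 hw2
    rw [hα] at hw2
    rw [pv_mul ha hw1 hw2, Function.comp, X, ← hα]
    ring
  have h7 := tendsto_nhds_unique (h2.congr' h6) h5
  rw [one_mul, eq_comm, div_eq_zero_iff] at h7
  exact h7.resolve_right (pow_ne_zero 2 Om_ne_zero)

theorem hasDerivAt_X {z : ℂ} (hz : z ∉ PP.lattice) : HasDerivAt X (Om * Y z) z := by
  have h := (hasDerivAt_P hz).div_const (Om ^ 2)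
  have e : PP.derivWeierstrassP z / Om ^ 2 = Om * Y z := by
    have := Om_ne_zero
    rw [Y]
    field_simp
  rwa [e] at h

theorem hasDerivAt_pv (p : Polynomial K) {z : ℂ} (hz : z ∉ PP.lattice) :
    HasDerivAt (fun w => pv p (X w)) (pv (Polynomial.derivative p) (X z) * (Om * Y z)) z := by
  have h1 := (p.map (embK.toRingHom : K →+* ℂ)).hasDerivAt (X z)
  rw [Polynomial.derivative_map] at h1
  exact HasDerivAt.comp z h1 (hasDerivAt_X hz)

theorem pv_der {a : 𝓞 K} (ha : a ≠ 0) {z : ℂ} (hz : z ∉ PP.lattice)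
    (haz : embK (a : K) * z ∉ PP.lattice) :
    pv (Polynomial.derivative (Mult.mulN a)) (X z) * Y z =
      embK (a : K) * Y (embK (a : K) * z) * pv (Mult.mulD a) (X z) +
        X (embK (a : K) * z) * (pv (Polynomial.derivative (Mult.mulD a)) (X z) * Y z) := by
  obtain ⟨α, hα⟩ : ∃ α : ℂ, α = embK (a : K) := ⟨_, rfl⟩
  have h1 := hasDerivAt_pv (Mult.mulN a) hz
  have h2 : HasDerivAt (fun w => X (α * w)) (Om * Y (α * z) * α) z := by
    have h3 : HasDerivAt (fun w : ℂ => α * w) α z := by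
      simpa using (hasDerivAt_id z).const_mul α
    rw [← hα] at haz
    exact HasDerivAt.comp z (hasDerivAt_X haz) h3
  have h3 := h2.mul (hasDerivAt_pv (Mult.mulD a) hz)
  have h4 : (fun w => pv (Mult.mulN a) (X w)) =ᶠ[𝓝 z]
      ((fun w => X (α * w)) * fun w => pv (Mult.mulD a) (X w)) := by
    have e1 : ∀ᶠ w in 𝓝 z, w ∉ PP.lattice := isOpen_compl.mem_nhds hz
    have e2 : ∀ᶠ w in 𝓝 z, α * w ∉ PP.lattice := by
      have h5 : ContinuousAt (fun w : ℂ => α * w) z := by fun_prop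
      rw [← hα] at haz
      exact h5.eventually (isOpen_compl.mem_nhds haz)
    filter_upwards [e1, e2] with w hw1 hw2
    rw [hα] at hw2
    rw [pv_mul ha hw1 hw2, Pi.mul_apply, hα]
  have h5 := h1.unique (h3.congr_of_eventuallyEq h4)
  rw [← hα]
  apply mul_left_cancel₀ Om_ne_zero
  linear_combination h5

theorem rel_mul {τ : ℂ ≃+* ℂ} (hτ : Fix τ) (a : 𝓞 K) {u w : ℂ} (h : Rel τ u w) :
    Rel τ (embK (a : K) * u) (embK (a : K) * w) := by
  by_cases ha : a = 0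
  · subst ha
    left
    have e : embK ((0 : 𝓞 K) : K) = 0 := map_zero embK
    rw [e, zero_mul, zero_mul]
    exact ⟨zero_mem _, zero_mem _⟩
  rcases h with ⟨h1, h2⟩ | ⟨h1, h2, h3, h4⟩
  · exact Or.inl ⟨mul_mem (embK_mem a) h1, mul_mem (embK_mem a) h2⟩
  have hp : ∀ p : Polynomial K, pv p (X w) = τ (pv p (X u)) := fun p => by rw [pv_map hτ, h3]
  by_cases hu : embK (a : K) * u ∈ PP.lattice
  · have e1 : pv (Mult.mulD a) (X w) = 0 := by rw [hp, pv_D_zero ha h1 hu, map_zero]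
    have e2 : embK (a : K) * w ∈ PP.lattice := by
      by_contra hw
      exact pv_D_ne ha h2 hw e1
    exact Or.inl ⟨hu, e2⟩
  · have e0 := pv_D_ne ha h1 hu
    have e1 : pv (Mult.mulD a) (X w) ≠ 0 := by
      rw [hp]
      exact (map_ne_zero_iff τ τ.injective).2 e0
    have hw : embK (a : K) * w ∉ PP.lattice := fun hw => e1 (pv_D_zero ha h2 hw)
    have e3 : X (embK (a : K) * w) = τ (X (embK (a : K) * u)) := by
      apply mul_right_cancel₀ e1
      rw [← pv_mul ha h2 hw, hp, pv_mul ha h1 hu, map_mul, hp]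
    have e4 : Y (embK (a : K) * w) = τ (Y (embK (a : K) * u)) := by
      have d1 := congrArg τ (pv_der ha h1 hu)
      have d2 := pv_der ha h2 hw
      rw [map_add, map_mul, map_mul, map_mul, map_mul, map_mul, fx_K hτ, ← hp, ← hp, ← hp, ← h4,
        ← e3] at d1
      apply mul_left_cancel₀ (Mult.embK_ne_zero ha)
      apply mul_right_cancel₀ e1
      linear_combination d1 - d2
    exact Or.inr ⟨hu, hw, e3, e4⟩

theorem rel_zt {τ : ℂ ≃+* ℂ} (hτ : Fix τ) {u w : ℂ} (h : Rel τ u w) : Rel τ (zt * u) (zt * w) :=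
  rel_mul hτ omO h

/-! ### The addition formulas -/

theorem slope {u v : ℂ} (hu : 2 * u ∉ PP.lattice) (hv : 2 * v ∉ PP.lattice)
    (h1 : u - v ∉ PP.lattice) (h2 : u + v ∉ PP.lattice) :
    (X u - X v) * (2 * (ev (u + v) - ev u - ev v)) = Y u - Y v := by
  have a1 := sig hv (notMem_of_two_mul hu) h1 h2
  have a2 := sig hu (notMem_of_two_mul hv)
    (fun h => h1 (by have := neg_mem h; rwa [neg_sub] at this)) (by rwa [add_comm])
  have e1 : E1 (v - u) = -E1 (u - v) := by rw [← E1_neg, neg_sub]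
  rw [e1, add_comm v u] at a2
  have hO := Om_ne_zero
  rw [X, X, Y, Y, ev, ev, ev]
  field_simp
  linear_combination a2 - a1

theorem sq {u v : ℂ} (hu : u ∉ PP.lattice) (hv : v ∉ PP.lattice) (huv : u + v ∉ PP.lattice) :
    (ev (u + v) - ev u - ev v) ^ 2 = X u + X v + X (u + v) := by
  have h := add_sq hu hv huv
  have hO := Om_ne_zero
  rw [X, X, X, ev, ev, ev]
  field_simp
  linear_combination h


theorem dupl {u : ℂ} (hu : 2 * u ∉ PP.lattice) :
    (ev (2 * u) - 2 * ev u) * Y u = 3 * X u ^ 2 + cA ℂ := by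
  have h := Ell.tangent hu
  rw [Ell.sl, ← two_mul u] at h
  rw [ev, ev, ← h]
  ring


/-! ### Torsion points of odd order -/


theorem embK_dvd {M : ℕ} {a : 𝓞 K} (hM : 0 < M) (h : embK (a : K) / M ∈ PP.lattice) :
    (M : 𝓞 K) ∣ a := by
  obtain ⟨y, hy⟩ := mem_PP_iff.1 h
  have hM0 : (M : ℂ) ≠ 0 := by exact_mod_cast hM.ne'
  refine ⟨y, ?_⟩
  apply RingOfIntegers.ext
  apply embK.toRingHom.injective
  show embK (a : K) = embK (((M : 𝓞 K) * y : 𝓞 K) : K)
  have e : (((M : 𝓞 K) * y : 𝓞 K) : K) = (M : K) * (y : K) := by push_cast; rfl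
  rw [e, map_mul, map_natCast, hy]
  field_simp


end

end Pool.Agent.Lib.MP_1a91b9_nuT.Rq
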