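import Pool.Agent.Lib.MP_1a91b9_nuT.Rq.D1

/-!
# JOB S10-D2: a basis of `F = N(√-3)` over `K` which comes from `N`

`[F : N] = 2`, `om ∉ N`. Let `v : Fin (m+1) → N` be a `ℚ`-basis of `N` (`[N : ℚ] = [F : K] = m + 1` by the
tower law, `S4.u4_finrank`; `Module.finBasisOfFinrankEq`). The images `algebraMap N F (v i)` are linearly
independent over `K`: a relation `∑ x_i v_i = 0` with `x_i = p_i + q_i om`, `p_i q_i : ℚ`
(`K = ℚ + ℚ om`) gives `P + Q om = 0` with `P = ∑ p_i v_i`, `Q = ∑ q_i v_i` in `N`; as `om ∉ N`,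
`Q = 0` and `P = 0`, so all `p_i = q_i = 0`. So they form a basis `bb` of `F` over `K`
(`basisOfLinearIndependentOfCardEqFinrank`).
`dt σ bb ^ 2 = Algebra.discr ℚ v`: the maps `σ j ∘ algebraMap N F : N →ₐ[ℚ] ℂ` are all the embeddings
of `N` (injective in `j`: `F` is generated by `N` and `K`: if `σ j = σ j'` on `N` they agree on the
basis `bb`, hence are equal; number of embeddings `= m + 1`), and
`Algebra.discr_eq_det_embeddingsMatrixReindex_pow_two`. Then `disc_basis`.
-/

set_option autoImplicit false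

namespace Pool.Agent.Lib.MP_1a91b9_nuT.Rq

variable [CD]

open NumberField

universe u

private theorem D2_repr (k : K) : ∃ a b : ℚ, k = algebraMap ℚ K a + algebraMap ℚ K b * om := by
  obtain ⟨a, b, h⟩ := exists_rat_coords k
  exact ⟨a, b, by rw [h, eq_ratCast, eq_ratCast]⟩

private theorem D2_finrankK : Module.finrank ℚ K = 2 := finrank_K

private theorem D2_finrankKF {F : Type u} [Field F] [NumberField F] [Algebra K F] {m : ℕ}
    (σ : Fin (m + 1) → (F →ₐ[K] ℂ)) (hσ : Function.Bijective σ) :
    Module.finrank K F = m + 1 := by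
  have : IsScalarTower ℚ K F := IsScalarTower.of_algebraMap_eq' (Subsingleton.elim _ _)
  have : FiniteDimensional K F := FiniteDimensional.right ℚ K F
  have : CharZero K := inferInstance
  have : Algebra.IsSeparable K F := Algebra.IsAlgebraic.isSeparable_of_perfectField
  have h := AlgHom.card K F ℂ
  rw [← h, ← Fintype.card_of_bijective hσ, Fintype.card_fin]

private theorem D2_finrankN {N F : Type u} [Field N] [NumberField N] [Field F] [NumberField F]
    [Algebra N F] [Algebra K F] (hL : Module.finrank N F = 2) {m : ℕ}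
    (σ : Fin (m + 1) → (F →ₐ[K] ℂ)) (hσ : Function.Bijective σ) :
    Module.finrank ℚ N = m + 1 := by
  have : IsScalarTower ℚ K F := IsScalarTower.of_algebraMap_eq' (Subsingleton.elim _ _)
  have : IsScalarTower ℚ N F := IsScalarTower.of_algebraMap_eq' (Subsingleton.elim _ _)
  have h1 := Module.finrank_mul_finrank ℚ K F
  have h2 := Module.finrank_mul_finrank ℚ N F
  rw [D2_finrankK, D2_finrankKF σ hσ] at h1
  rw [hL] at h2
  omega

private theorem D2_li {N F : Type u} [Field N] [NumberField N] [Field F] [NumberField F]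
    [Algebra N F] [Algebra K F] (hn : ∀ x : N, algebraMap N F x ≠ algebraMap K F om) {ι : Type}
    [Fintype ι] (v : ι → N) (hv : LinearIndependent ℚ v) :
    LinearIndependent K (fun i => algebraMap N F (v i)) := by
  have : IsScalarTower ℚ K F := IsScalarTower.of_algebraMap_eq' (Subsingleton.elim _ _)
  have : IsScalarTower ℚ N F := IsScalarTower.of_algebraMap_eq' (Subsingleton.elim _ _)
  rw [Fintype.linearIndependent_iff] at hv ⊢
  intro g hg
  choose p q hpq using fun i => D2_repr (g i)
  have hP : algebraMap N F (∑ i, p i • v i) + algebraMap K F om * algebraMap N F (∑ i, q i • v i)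
      = 0 := by
    rw [← hg, map_sum, map_sum, Finset.mul_sum, ← Finset.sum_add_distrib]
    refine Finset.sum_congr rfl fun i _ => ?_
    rw [Algebra.smul_def (g i), hpq i, map_add, map_mul, Algebra.smul_def (p i),
      Algebra.smul_def (q i), map_mul, map_mul, ← IsScalarTower.algebraMap_apply ℚ N F,
      ← IsScalarTower.algebraMap_apply ℚ N F, ← IsScalarTower.algebraMap_apply ℚ K F,
      ← IsScalarTower.algebraMap_apply ℚ K F]
    ring
  have hQ0 : ∑ i, q i • v i = 0 := by
    by_contra hne
    have hne' : algebraMap N F (∑ i, q i • v i) ≠ 0 := by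
      rw [Ne, map_eq_zero]
      exact hne
    refine hn (-(∑ i, p i • v i) / (∑ i, q i • v i)) ?_
    rw [map_div₀, map_neg, div_eq_iff hne']
    linear_combination -hP
  have hP0 : ∑ i, p i • v i = 0 := by
    rw [hQ0, map_zero, mul_zero, add_zero, map_eq_zero] at hP
    exact hP
  intro i
  rw [hpq i, hv p hP0 i, hv q hQ0 i, map_zero, zero_mul, add_zero]

theorem disc_N {N F : Type u} [Field N] [NumberField N] [Field F] [NumberField F] [Algebra N F]
    [Algebra K F] (hL : Module.finrank N F = 2)
    (hn : ∀ x : N, algebraMap N F x ≠ algebraMap K F om) {m : ℕ}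
    (σ : Fin (m + 1) → (F →ₐ[K] ℂ)) (hσ : Function.Bijective σ) :
    ∃ (bb : Module.Basis (Fin (m + 1)) K F) (q : ℚ), q ≠ 0 ∧
      dt σ bb ^ 2 = ((q ^ 2 * (discr N : ℚ) : ℚ) : ℂ) := by
  have : IsScalarTower ℚ K F := IsScalarTower.of_algebraMap_eq' (Subsingleton.elim _ _)
  have : IsScalarTower ℚ N F := IsScalarTower.of_algebraMap_eq' (Subsingleton.elim _ _)
  have hKF := D2_finrankKF σ hσ
  have hN := D2_finrankN hL σ hσ
  let v : Module.Basis (Fin (m + 1)) ℚ N := Module.finBasisOfFinrankEq ℚ N hN
  have hli := D2_li hn v v.linearIndependent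
  have hcard : Fintype.card (Fin (m + 1)) = Module.finrank K F := by
    rw [hKF, Fintype.card_fin]
  let bb : Module.Basis (Fin (m + 1)) K F := basisOfLinearIndependentOfCardEqFinrank hli hcard
  have hbb : ∀ i, bb i = algebraMap N F (v i) := by
    intro i
    exact congrFun (coe_basisOfLinearIndependentOfCardEqFinrank hli hcard) i
  let f : Fin (m + 1) → (N →ₐ[ℚ] ℂ) := fun j =>
    ((σ j).toRingHom.comp (algebraMap N F)).toRatAlgHom
  have hf : ∀ j x, f j x = σ j (algebraMap N F x) := fun j x => rfl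
  have hinj : Function.Injective f := by
    intro j j' h
    apply hσ.1
    have h1 : (σ j).toLinearMap = (σ j').toLinearMap := by
      refine bb.ext fun i => ?_
      rw [AlgHom.toLinearMap_apply, AlgHom.toLinearMap_apply, hbb, ← hf, ← hf, h]
    exact AlgHom.toLinearMap_injective h1
  have hbij : Function.Bijective f := by
    refine (Fintype.bijective_iff_injective_and_card f).2 ⟨hinj, ?_⟩
    rw [Fintype.card_fin, AlgHom.card ℚ N ℂ, hN]
  let e : Fin (m + 1) ≃ (N →ₐ[ℚ] ℂ) := Equiv.ofBijective f hbij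
  have hd := Algebra.discr_eq_det_embeddingsMatrixReindex_pow_two ℚ ℂ v e
  have hm : Algebra.embeddingsMatrixReindex ℚ ℂ v e = Matrix.of fun i j => σ j (bb i) := by
    ext i j
    rw [Matrix.of_apply, hbb]
    rfl
  obtain ⟨q, hq, hqd⟩ := disc_basis v
  refine ⟨bb, q, hq, ?_⟩
  unfold dt
  rw [← hm, ← hd, hqd]
  rfl

end Pool.Agent.Lib.MP_1a91b9_nuT.Rq
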