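import Pool.Agent.Lib.MP_1a91b9_nuT.Rq.Va
import Pool.Agent.Lib.MP_1a91b9_nuT.Sd

/-!
# Arithmetic with the periods

`P = Om y` is a real number (`y ∈ K`), so `conj Om = Om y / conj y` and `‖Om‖ ^ 2 = Om ^ 2 y / conj y`.
`ar_real`: `n = r1 + 2 r2`, `Om ^ n * d * κ * √|D| = R * P ^ r1 * (sd * ‖Om‖ ^ 2) ^ r2`, where
`d ^ 2 = q ^ 2 D`, `D = (-1) ^ r2 |D|`; so `d * √|D| = ± q |D| I ^ r2`, and
`R = ± q |D| κ (I / sd) ^ r2 * y ^ (-r1) * (conj y / y) ^ r2` is in `K`; it is real, hence rational.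
-/

set_option autoImplicit false

namespace Pool.Agent.Lib.MP_1a91b9_nuT.Rq

variable [CD]

open NumberField

/-- `‖Om‖ ^ 2` is `Om ^ 2` times an element of `K` if there is a real number `Om y`. -/
theorem ar_normSq {P : ℝ} {y : K} (hP : P ≠ 0) (hy : (P : ℂ) = Om * embK y) :
    ∃ x : K, x ≠ 0 ∧ ((‖Om‖ ^ 2 : ℝ) : ℂ) = Om ^ 2 * embK x := by
  obtain ⟨y', hy'⟩ := va_conj y
  have hy0 : embK y ≠ 0 := by
    intro h
    rw [h, mul_zero] at hy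
    exact hP (Complex.ofReal_eq_zero.1 hy)
  have hy0' : embK y' ≠ 0 := by
    rw [← hy']
    exact (map_ne_zero_iff _ (RingHom.injective _)).2 hy0
  have h1 : (starRingEnd ℂ) Om * embK y' = Om * embK y := by
    rw [← hy', ← map_mul, ← hy, Complex.conj_ofReal]
  refine ⟨y / y', ?_, ?_⟩
  · intro h
    have h2 := congrArg embK h
    rw [map_div₀, map_zero] at h2
    exact div_ne_zero hy0 hy0' h2
  · rw [← Complex.normSq_eq_norm_sq, ← Complex.mul_conj, map_div₀, ← mul_div_assoc,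
      eq_div_iff hy0']
    linear_combination Om * h1

theorem ar_real (r1 r2 : ℕ) (κ : K) (d : ℂ) (q : ℚ) (D : ℤ)
    (hs : (D : ℝ) = (-1) ^ r2 * |(D : ℝ)|) (hd : d ^ 2 = ((q ^ 2 * (D : ℚ) : ℚ) : ℂ))
    {P : ℝ} {y : K} (hP : P ≠ 0) (hy : (P : ℂ) = Om * embK y) (R : ℝ)
    (h : Om ^ (r1 + 2 * r2) * d * embK κ * ((Real.sqrt |(D : ℝ)| : ℝ) : ℂ) =
      (R : ℂ) * ((P ^ r1 * (sd * ‖Om‖ ^ 2) ^ r2 : ℝ) : ℂ)) :
    ∃ r : ℚ, (r : ℝ) = R := by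
  obtain ⟨xI, hxI⟩ := exists_I_sd
  obtain ⟨x, hx0, hx⟩ := ar_normSq hP hy
  have hy0 : embK y ≠ 0 := by
    intro h0
    rw [h0, mul_zero] at hy
    exact hP (Complex.ofReal_eq_zero.1 hy)
  have hx0' : embK x ≠ 0 := (map_ne_zero_iff _ embK.injective).2 hx0
  have hA : ((Real.sqrt |(D : ℝ)| : ℝ) : ℂ) ^ 2 = ((|(D : ℝ)| : ℝ) : ℂ) := by
    rw [← Complex.ofReal_pow, Real.sq_sqrt (abs_nonneg _)]
  have hDC : (D : ℂ) = (-1) ^ r2 * ((|(D : ℝ)| : ℝ) : ℂ) := by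
    have h1 := congrArg (fun t : ℝ => (t : ℂ)) hs
    simp only [Complex.ofReal_mul, Complex.ofReal_pow, Complex.ofReal_neg, Complex.ofReal_one,
      Complex.ofReal_intCast] at h1
    exact h1
  have hd' : d ^ 2 = (q : ℂ) ^ 2 * (D : ℂ) := by
    rw [hd]
    push_cast
    ring
  have hsq : (d * ((Real.sqrt |(D : ℝ)| : ℝ) : ℂ)) ^ 2 =
      ((q : ℂ) * ((|(D : ℝ)| : ℝ) : ℂ) * Complex.I ^ r2) ^ 2 := by
    rw [mul_pow, hA, hd', hDC, mul_pow, mul_pow, ← pow_mul, mul_comm r2 2, pow_mul, Complex.I_sq]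
    ring
  obtain ⟨ε, hε⟩ : ∃ ε : ℚ, d * ((Real.sqrt |(D : ℝ)| : ℝ) : ℂ) =
      (ε : ℂ) * ((q : ℂ) * ((|(D : ℝ)| : ℝ) : ℂ) * Complex.I ^ r2) := by
    rcases sq_eq_sq_iff_eq_or_eq_neg.1 hsq with h1 | h1
    · exact ⟨1, by rw [h1]; push_cast; ring⟩
    · exact ⟨-1, by rw [h1]; push_cast; ring⟩
  have hDQ : ((|(D : ℝ)| : ℝ) : ℂ) = (((|D| : ℤ) : ℚ) : ℂ) := by
    rw [← Int.cast_abs, Complex.ofReal_intCast, Rat.cast_intCast]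
  obtain ⟨z, hz⟩ : ∃ z : K, z = algebraMap ℚ K (ε * (q * ((|D| : ℤ) : ℚ))) := ⟨_, rfl⟩
  have hzE : embK z = (ε : ℂ) * ((q : ℂ) * ((|(D : ℝ)| : ℝ) : ℂ)) := by
    rw [hz, hDQ, eq_ratCast, map_ratCast]
    push_cast
    rfl
  have hOm : Om ^ (r1 + 2 * r2) ≠ 0 := pow_ne_zero _ Om_ne
  have hdn : ((4 * CD.nm - CD.tr ^ 2 : ℤ) : ℂ) ≠ 0 := by
    rw [← sdC_sq]
    exact pow_ne_zero 2 sdC_ne
  refine real_K (x := κ * z * (xI / ((4 * CD.nm - CD.tr ^ 2 : ℤ) : K)) ^ r2 / (y ^ r1 * x ^ r2)) ?_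
  rw [map_div₀, map_mul, map_mul, map_mul, map_pow, map_pow, map_pow, map_div₀, map_intCast, hxI,
    hzE, div_eq_iff (mul_ne_zero (pow_ne_zero _ hy0) (pow_ne_zero _ hx0')), ← sdC_sq]
  have e1 : Complex.I * (sd : ℂ) / (sd : ℂ) ^ 2 = Complex.I / (sd : ℂ) := by
    have := sdC_ne
    field_simp
  rw [e1, div_pow]
  apply mul_left_cancel₀ hOm
  have h2 : Om ^ (r1 + 2 * r2) * (d * ((Real.sqrt |(D : ℝ)| : ℝ) : ℂ)) * embK κ =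
      (R : ℂ) * ((Om * embK y) ^ r1 * ((sd : ℂ) * (Om ^ 2 * embK x)) ^ r2) := by
    rw [← hx, ← hy]
    push_cast at h ⊢
    linear_combination h
  rw [hε] at h2
  have hs2 : (sd : ℂ) ^ r2 ≠ 0 := pow_ne_zero _ sdC_ne
  rw [← mul_div_assoc, ← mul_div_assoc, div_eq_iff hs2]
  have e2 : ((sd : ℂ) * (Om ^ 2 * embK x)) ^ r2 = (sd : ℂ) ^ r2 * (Om ^ (2 * r2) * embK x ^ r2) := by
    rw [mul_pow, mul_pow, ← pow_mul]
  rw [e2, mul_pow] at h2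
  rw [pow_add] at h2 ⊢
  linear_combination h2

end Pool.Agent.Lib.MP_1a91b9_nuT.Rq
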