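import Pool.Agent.Lib.MP_1a91b9_nuT.Rq.Fx
import Pool.Agent.Lib.MP_1a91b9_nuT.S3.Card

/-!
# The complex conjugates of the elements of `K`
-/


set_option autoImplicit false

namespace Pool.Agent.Lib.MP_1a91b9_nuT.Rq

variable [CD]

open NumberField

universe u

variable {F : Type u} [Field F] [NumberField F] [Algebra K F]

/-- The trace from `K` to the rational numbers. -/
theorem VA1_trace (x : K) : ((Algebra.trace ℚ K x : ℚ) : ℂ) =
    embK x + (starRingEnd ℂ) (embK x) := by
  classical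
  have h := trace_eq_sum_embeddings (K := ℚ) (L := K) ℂ (x := x)
  have hcard : Fintype.card (K →ₐ[ℚ] ℂ) = 2 := by
    rw [AlgHom.card, finrank_K]
  have huniv : (Finset.univ : Finset (K →ₐ[ℚ] ℂ)) = {embK, S3.embK'} := by
    symm
    apply Finset.eq_univ_of_card
    rw [Finset.card_pair S3.embK_ne, hcard]
  rw [huniv, Finset.sum_pair S3.embK_ne] at h
  exact h

theorem va_conj (x : K) : ∃ y : K, (starRingEnd ℂ) (embK x) = embK y := by
  refine ⟨algebraMap ℚ K (Algebra.trace ℚ K x) - x, ?_⟩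
  have h : embK (algebraMap ℚ K (Algebra.trace ℚ K x)) = ((Algebra.trace ℚ K x : ℚ) : ℂ) :=
    embK.commutes _
  rw [map_sub, h, VA1_trace]
  ring


end Pool.Agent.Lib.MP_1a91b9_nuT.Rq
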