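import Mathlib

/-!
# JOB S10-AU: extension of isomorphisms between countable subfields of `ℂ`

`aut_gen` (generic): `A`, `B` algebraically closed fields of characteristic zero which are algebras
over the field `R`, `A`, `B : Type`, `#R ≤ ℵ₀`, `#A = #B > ℵ₀`. Take transcendence bases `v`, `w` of
`A` and `B` over `R` (`exists_isTranscendenceBasis' R A` or `exists_isTranscendenceBasis`). By
`IsAlgClosed.cardinal_eq_cardinal_transcendence_basis_of_aleph0_lt'` both index sets have the
cardinality of `A`, so there is an equivalence `e` of the index sets. Now copy the definition of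
`IsAlgClosed.equivOfTranscendenceBasis` (Mathlib.FieldTheory.IsAlgClosed.Classification): the
isomorphism `e0 : Algebra.adjoin R (range v) ≃ₐ[R] Algebra.adjoin R (range w)` (keep it an `AlgEquiv`
over `R`: `hv.1.aevalEquiv.symm.trans ((MvPolynomial.renameEquiv R e).trans hw.1.aevalEquiv)`), and
`IsAlgClosure.equivOfEquiv A B e0.toRingEquiv` with `IsAlgClosure.equivOfEquiv_algebraMap`; the
instances `IsAlgClosure (Algebra.adjoin R (range v)) A` from
`IsAlgClosed.isAlgClosure_of_transcendence_basis`. On `R`: `algebraMap R A x` is the image of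
`algebraMap R (adjoin ..) x`, which `e0` maps to `algebraMap R (adjoin ..) x` (`AlgEquiv.commutes`).
`aut_ext`: apply `aut_gen` with `A = B = ℂ` and the algebra structures `f.toAlgebra`, `g.toAlgebra`
(`@aut_gen R ℂ ℂ _ _ _ f.toAlgebra g.toAlgebra ...`), `Cardinal.mk_complex` and
`Cardinal.aleph0_lt_continuum`; `#R ≤ ℵ₀` is `Cardinal.mk_le_aleph0`.
-/

set_option autoImplicit false

namespace Pool.Agent.Lib.MP_1a91b9_nuT.Rq

theorem aut_gen {R A B : Type} [Field R] [Field A] [Field B] [Algebra R A] [Algebra R B]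
    [IsAlgClosed A] [IsAlgClosed B] (hR : Cardinal.mk R ≤ Cardinal.aleph0)
    (hA : Cardinal.aleph0 < Cardinal.mk A) (hAB : Cardinal.mk A = Cardinal.mk B) :
    ∃ τ : A ≃+* B, ∀ x : R, τ (algebraMap R A x) = algebraMap R B x := by
  obtain ⟨s, hs⟩ := exists_isTranscendenceBasis R A
  obtain ⟨t, ht⟩ := exists_isTranscendenceBasis R B
  have hs1 := IsAlgClosed.cardinal_eq_cardinal_transcendence_basis_of_aleph0_lt' _ hs hR hA
  have ht1 := IsAlgClosed.cardinal_eq_cardinal_transcendence_basis_of_aleph0_lt' _ ht hR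
    (hAB ▸ hA)
  obtain ⟨e⟩ := Cardinal.eq.mp (hs1.symm.trans (hAB.trans ht1))
  letI := IsAlgClosed.isAlgClosure_of_transcendence_basis _ hs
  letI := IsAlgClosed.isAlgClosure_of_transcendence_basis _ ht
  let e0 := hs.1.aevalEquiv.symm.trans ((MvPolynomial.renameEquiv R e).trans ht.1.aevalEquiv)
  refine ⟨IsAlgClosure.equivOfEquiv A B e0.toRingEquiv, fun x => ?_⟩
  have h1 := IsAlgClosure.equivOfEquiv_algebraMap A B e0.toRingEquiv (algebraMap R _ x)
  have h2 : e0.toRingEquiv (algebraMap R _ x) = algebraMap R _ x := e0.commutes x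
  rw [h2] at h1
  exact h1

theorem aut_ext {R : Type} [Field R] [Countable R] (f g : R →+* ℂ) :
    ∃ τ : ℂ ≃+* ℂ, ∀ x : R, τ (f x) = g x := by
  exact @aut_gen R ℂ ℂ _ _ _ f.toAlgebra g.toAlgebra _ _ Cardinal.mk_le_aleph0
    (by rw [Cardinal.mk_complex]; exact Cardinal.aleph0_lt_continuum) rfl

end Pool.Agent.Lib.MP_1a91b9_nuT.Rq
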