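import Pool.Agent.Lib.MP_1a91b9_nuT.Rq.Defs
import Pool.Agent.Lib.MP_1a91b9_nuT.S6.De2

/-!
# JOB S10-DE: the smoothed indicator function is invariant under `z ↦ χ z`, `χ ≡ 1 mod 3`

Let `M z = 3 β β' y` with `y ∈ 𝔟`, `3 ∣ M`, `a χ + b₁ M = 1` (`IsCoprime`), `J` any ideal of `𝓞 F`
with (as elements of `F`) `M z ∈ J`: if `χ z ∈ J` then `z = a (χ z) + b₁ (M z) ∈ J`; the converse is
clear. Apply this to `J = 𝔟 β` and `J = 𝔟 β'`, i.e. to the sets `mulI 𝔟 β`, `mulI 𝔟 β'`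
(`M z = β * (3 β' y)`).
`cls 𝔟 (3) t` (`z = w ∈ 𝓞 F`, `w - t ∈ span {3} * 𝔟`): if `z ∈ cls` then
`χ w - t = χ (w - t) + (χ - 1) t ∈ span {3} * 𝔟`. If `χ z = w' ∈ 𝓞 F`, `w' - t ∈ span {3} * 𝔟 ≤ 𝔟`:
`w' ∈ 𝔟`, so `z = a w' + b₁ (M z) =: w` is (the image of an element) in `𝔟`; and
`w - t = a χ (w - t) + b₁ M (w - t)`, `χ (w - t) = (w' - t) - (χ - 1) t ∈ span {3} * 𝔟`,
`M (w - t) = 3 (M/3) (w - t) ∈ span {3} * 𝔟`. So the three conditions in `del` are equivalent for `z`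
and `χ z` and `if_congr` applies. (`S6/De1.lean`: `de1_mem`, `S6/De2.lean`: `de2_mul`, `de2_cls`,
`de2_mulI` ... are useful.)
`de_fix`: `del` takes the values `0`, `1`, `1 - ‖embK b‖²`, and `‖embK b‖² = embK (b * bbar)`
with `bbar : K` (`(embK b) * conj (embK b)`; conj is given on `K` by `om ↦ om²`); simplest:
`‖embK b‖²` is the (natural) number `Ideal.absNorm (span {b})` (`de1_absK` in S6/De1.lean). So all
values of `del` are rational integers and every ring homomorphism fixes them.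
-/

set_option autoImplicit false

namespace Pool.Agent.Lib.MP_1a91b9_nuT.Rq

variable [CD]

open NumberField

universe u

variable {F : Type u} [Field F] [NumberField F] [Algebra K F]


theorem de_fix (𝔟 𝔪 : Ideal (𝓞 F)) (t β' β : 𝓞 F) (b : 𝓞 K) (z : F) (τ : ℂ ≃+* ℂ) :
    τ (del 𝔟 𝔪 t β' β b z) = del 𝔟 𝔪 t β' β b z := by
  classical
  have h1 : (((‖embK (b : K)‖ ^ 2 : ℝ)) : ℂ) = ((Ideal.absNorm (Ideal.span {b}) : ℕ) : ℂ) := by
    rw [← de1_absK]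
    exact Complex.ofReal_natCast _
  unfold del
  rw [h1]
  split_ifs
  · rw [mul_one, map_sub, map_one, map_natCast]
  · rw [mul_zero, sub_zero, map_one]
  · rw [map_zero]

/-- Every finite set of elements has a common denominator for a nonzero ideal. -/
theorem de_den (𝔟 : Ideal (𝓞 F)) (hb : 𝔟 ≠ ⊥) (β β' : 𝓞 F) (hβ : β ≠ 0) (hβ' : β' ≠ 0)
    (Z : Finset F) : ∃ M : ℕ, 0 < M ∧ 3 ∣ M ∧
      ∀ z ∈ Z, ∃ y ∈ 𝔟, (M : F) * z = 3 * (β : F) * (β' : F) * (y : F) := by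
  classical
  obtain ⟨N₀, hN₀, hN₁⟩ : ∃ N₀ : ℕ, 0 < N₀ ∧ ∀ z ∈ Z, ∃ y ∈ 𝔟, (N₀ : F) * z =
      (β : F) * (β' : F) * (y : F) := by
    induction Z using Finset.induction_on with
    | empty => exact ⟨1, one_pos, fun z hz => absurd hz (Finset.notMem_empty z)⟩
    | insert w Z hw ih =>
      obtain ⟨N, hN, h⟩ := ih
      obtain ⟨N', hN', y', hy', hyw⟩ : ∃ N' : ℕ, 0 < N' ∧ ∃ y ∈ 𝔟, (N' : F) * w =
          (β : F) * (β' : F) * (y : F) := by
        by_cases hw0 : w = 0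
        · refine ⟨1, one_pos, 0, 𝔟.zero_mem, ?_⟩
          rw [hw0, de2_zero]
          ring
        · obtain ⟨N', hN', y, hy, _, h1⟩ := de_scale 𝔟 hb (β * β') (mul_ne_zero hβ hβ') w hw0
          exact ⟨N', hN', y, hy, by rw [h1, de2_mul]⟩
      refine ⟨N * N', Nat.mul_pos hN hN', fun z hz => ?_⟩
      rcases Finset.mem_insert.1 hz with rfl | hz
      · refine ⟨((N : ℕ) : 𝓞 F) * y', 𝔟.mul_mem_left _ hy', ?_⟩
        rw [de2_mul, de2_nat]
        push_cast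
        linear_combination (N : F) * hyw
      · obtain ⟨y, hy, h1⟩ := h z hz
        refine ⟨((N' : ℕ) : 𝓞 F) * y, 𝔟.mul_mem_left _ hy, ?_⟩
        rw [de2_mul, de2_nat]
        push_cast
        linear_combination (N' : F) * h1
  refine ⟨3 * N₀, by omega, ⟨N₀, rfl⟩, fun z hz => ?_⟩
  obtain ⟨y, hy, h1⟩ := hN₁ z hz
  refine ⟨y, hy, ?_⟩
  push_cast
  linear_combination 3 * h1

end Pool.Agent.Lib.MP_1a91b9_nuT.Rq
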