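import Pool.Agent.Lib.MP_1a91b9_nuT.BaseK
import Pool.Agent.Lib.MP_1a91b9_nuT.S3.Grp

/-!
# S10 (rationality of the L-quotient): definitions
-/

set_option autoImplicit false

namespace Pool.Agent.Lib.MP_1a91b9_nuT.Rq

variable [CD]

open NumberField

noncomputable section

/-- The normalised function `E₁`. -/
def ev (z : ℂ) : ℂ := E1 z / Om


/-- The automorphisms of `ℂ` which fix `K`. -/
def Fix (τ : ℂ ≃+* ℂ) : Prop := τ zt = zt

/-- The determinant of the conjugates of a family. -/
def dt {F : Type*} [Field F] [NumberField F] [Algebra K F] {m : ℕ}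
    (σ : Fin (m + 1) → (F →ₐ[K] ℂ)) (w : Fin (m + 1) → F) : ℂ :=
  (Matrix.of fun i j => σ j (w i)).det

end

end Pool.Agent.Lib.MP_1a91b9_nuT.Rq
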