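import Pool.Agent.Lib.MP_1a91b9_nuT.Rq.Defs

/-!
# JOB S10-DT: determinants of conjugates

`dt_rel`: `w i = ∑ k, bb.repr (w i) k • bb k`, `σ j (w i) = ∑ k, embK (bb.repr (w i) k) * σ j (bb k)`
(`σ j` is `K`-linear, `Algebra.smul_def`, `AlgHom.commutes`, `algebraMap_eq`), so the matrix
`(σ j (w i))` is the product of `(embK (bb.repr (w i) k))_{i k}` = transpose of the image of
`bb.toMatrix w`, and `(σ j (bb k))_{k j}`: `Matrix.det_mul`, `Matrix.det_transpose`,
`Module.Basis.det_apply`, `RingHom.map_det`.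
`dt_ne`: the square of `dt σ bb` is `embK (Algebra.discr K bb)` :
`Algebra.discr_eq_det_embeddingsMatrixReindex_pow_two` with the equivalence
`Equiv.ofBijective σ hσ` (or direct: `(σ j (bb i)) * transpose = (embK (trace (bb i * bb k)))`
from `trace_eq_sum_embeddings`), and the discriminant of a basis of a separable extension is not
zero (`Algebra.discr_isUnit_of_basis` / `Algebra.discr_not_zero_of_basis`).
-/

set_option autoImplicit false

namespace Pool.Agent.Lib.MP_1a91b9_nuT.Rq

variable [CD]

open NumberField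

universe u

variable {F : Type u} [Field F] [NumberField F] [Algebra K F]

theorem dt_rel {m : ℕ} (σ : Fin (m + 1) → (F →ₐ[K] ℂ)) (bb : Module.Basis (Fin (m + 1)) K F)
    (w : Fin (m + 1) → F) : dt σ w = embK (bb.det w) * dt σ bb := by
  have h1 : (Matrix.of fun i j => σ j (w i)) =
      ((bb.toMatrix w).map embK).transpose * (Matrix.of fun i j => σ j (bb i)) := by
    ext i j
    rw [Matrix.mul_apply, Matrix.of_apply]
    have h2 : w i = ∑ k, bb.repr (w i) k • bb k := (bb.sum_repr (w i)).symm
    conv_lhs => rw [h2]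
    rw [map_sum]
    refine Finset.sum_congr rfl fun k _ => ?_
    rw [Algebra.smul_def, map_mul, AlgHom.commutes, algebraMap_eq, Matrix.transpose_apply,
      Matrix.map_apply, Module.Basis.toMatrix_apply, Matrix.of_apply]
  rw [dt, h1, Matrix.det_mul, Matrix.det_transpose, Module.Basis.det_apply]
  congr 1
  exact (RingHom.map_det (embK : K →+* ℂ) (bb.toMatrix w)).symm

theorem dt_sq {m : ℕ} (σ : Fin (m + 1) → (F →ₐ[K] ℂ)) (hσ : Function.Bijective σ)
    (bb : Module.Basis (Fin (m + 1)) K F) : dt σ bb ^ 2 = embK (Algebra.discr K bb) := by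
  have hfin : Module.Finite K F := Module.Finite.of_basis bb
  have h := Algebra.discr_eq_det_embeddingsMatrixReindex_pow_two K ℂ bb (Equiv.ofBijective σ hσ)
  rw [algebraMap_eq] at h
  rw [h]
  rfl

theorem dt_ne {m : ℕ} (σ : Fin (m + 1) → (F →ₐ[K] ℂ)) (hσ : Function.Bijective σ)
    (bb : Module.Basis (Fin (m + 1)) K F) : dt σ bb ≠ 0 := by
  have hfin : Module.Finite K F := Module.Finite.of_basis bb
  intro h0
  have h := dt_sq σ hσ bb
  rw [h0, zero_pow two_ne_zero] at h
  exact Algebra.discr_not_zero_of_basis K bb ((map_eq_zero embK).1 h.symm)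

end Pool.Agent.Lib.MP_1a91b9_nuT.Rq
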